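import Pool.Agent.W890.SF.Stm

/-!
# Matchings from robust covers: LP duality and the nibble
-/

set_option autoImplicit false

namespace Pool.Agent.W298.SAM.Rob

open Finset
open Pool.Agent.W890.SF

/-- the `k`-sets through two given vertices -/
theorem card_two {V : Type} [Fintype V] [DecidableEq V] (k : ℕ) (F : Finset (Finset V))
    (hF : Unif k F) (u v : V) (huv : u ≠ v) :
    (F.filter (fun e => u ∈ e ∧ v ∈ e)).card ≤ (Fintype.card V) ^ (k - 2) := by
  classical
  have h1 : (F.filter (fun e => u ∈ e ∧ v ∈ e)).card ≤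
      ((univ : Finset V).powersetCard (k - 2)).card := by
    refine Finset.card_le_card_of_injOn (fun e => e \ {u, v}) ?_ ?_
    · intro e he
      have he' := Finset.mem_filter.1 (Finset.mem_coe.1 he)
      refine Finset.mem_coe.2 (Finset.mem_powersetCard.2 ⟨Finset.subset_univ _, ?_⟩)
      have hsub : ({u, v} : Finset V) ⊆ e := by
        intro x hx
        rw [Finset.mem_insert, Finset.mem_singleton] at hx
        rcases hx with rfl | rfl
        · exact he'.2.1
        · exact he'.2.2
      change (e \ {u, v}).card = k - 2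
      rw [Finset.card_sdiff_of_subset hsub, Finset.card_pair huv, hF e he'.1]
    · intro e he f hf hef
      have he' := Finset.mem_filter.1 (Finset.mem_coe.1 he)
      have hf' := Finset.mem_filter.1 (Finset.mem_coe.1 hf)
      have hs : ∀ g : Finset V, u ∈ g → v ∈ g → g \ {u, v} ∪ {u, v} = g := by
        intro g hu hv
        apply Finset.sdiff_union_of_subset
        intro x hx
        rw [Finset.mem_insert, Finset.mem_singleton] at hx
        rcases hx with rfl | rfl
        · exact hu
        · exact hv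
      have hef' : e \ {u, v} = f \ {u, v} := hef
      rw [← hs e he'.2.1 he'.2.2, ← hs f hf'.2.1 hf'.2.2, hef']
  rw [Finset.card_powersetCard, Finset.card_univ] at h1
  exact h1.trans (Nat.choose_le_pow _ _)

/-- the linear programme: a fractional packing with small weights and large total weight -/
theorem frac (h1 : Pool.Agent.W163.CF.S1) {V : Type} [Fintype V] [DecidableEq V] [Nonempty V]
    (k : ℕ) (hk : 2 ≤ k) (F : Finset (Finset V)) (c τ m : ℝ) (hc : 0 < c) (hτ : 0 < τ)
    (hm : m ≤ (Fintype.card V : ℝ))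
    (h7 : ∀ y : V → ℝ, (∀ v, 0 ≤ y v) → ∑ v, y v ≤ m →
      c * (Fintype.card V : ℝ) ^ k ≤ ((F.filter (fun e => ∑ v ∈ e, y v ≤ 1 - τ)).card : ℝ)) :
    ∃ w : {e // e ∈ F} → ℝ, (∀ e, 0 ≤ w e) ∧
      (∀ v, ∑ e ∈ univ.filter (fun e : {e // e ∈ F} => v ∈ e.1), w e ≤ 1) ∧
      (∀ e, w e ≤ 1 / (τ * c) / (Fintype.card V : ℝ) ^ (k - 1)) ∧
      m ≤ ∑ e, w e := by
  classical
  set n : ℝ := (Fintype.card V : ℝ) with hn_def
  have hnpos : 0 < n := by
    rw [hn_def]
    exact_mod_cast Fintype.card_pos
  set cap : ℝ := 1 / (τ * c) / n ^ (k - 1) with hcap_def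
  have hcap : 0 < cap := by
    rw [hcap_def]
    positivity
  obtain ⟨y, w, hy, hw, hj, hi, hyw⟩ := h1 (V ⊕ {e // e ∈ F}) {e // e ∈ F}
    (fun i f => Sum.elim (fun v => if v ∈ f.1 then (1 : ℝ) else 0)
      (fun g => if g = f then 1 / cap else 0) i)
    (by
      intro i f
      rcases i with v | g
      · simp only [Sum.elim_inl]
        split_ifs <;> norm_num
      · simp only [Sum.elim_inr]
        split_ifs
        · positivity
        · exact le_rfl)
    (by
      intro f
      refine ⟨Sum.inr f, ?_⟩
      simp only [Sum.elim_inr, if_true]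
      positivity)
  have hj' : ∀ f : {e // e ∈ F}, 1 ≤ ∑ v ∈ f.1, y (Sum.inl v) + y (Sum.inr f) / cap := by
    intro f
    have h := hj f
    rw [Fintype.sum_sum_type] at h
    simp only [Sum.elim_inl, Sum.elim_inr] at h
    have e1 : ∑ v : V, y (Sum.inl v) * (if v ∈ f.1 then (1 : ℝ) else 0) =
        ∑ v ∈ f.1, y (Sum.inl v) := by
      simp only [mul_ite, mul_one, mul_zero]
      rw [Finset.sum_ite_mem, Finset.univ_inter]
    have e4 : ∑ g : {e // e ∈ F}, y (Sum.inr g) * (if g = f then 1 / cap else 0) =
        y (Sum.inr f) / cap := by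
      rw [Finset.sum_eq_single f]
      · rw [if_pos rfl]
        ring
      · intro g _ hg
        rw [if_neg hg, mul_zero]
      · intro h
        exact absurd (Finset.mem_univ _) h
    rw [e1, e4] at h
    exact h
  refine ⟨w, hw, ?_, ?_, ?_⟩
  · intro v
    have h := hi (Sum.inl v)
    simp only [Sum.elim_inl] at h
    refine le_trans (le_of_eq ?_) h
    rw [Finset.sum_filter]
    refine Finset.sum_congr rfl ?_
    intro f _
    split_ifs <;> simp
  · intro f
    have h := hi (Sum.inr f)
    simp only [Sum.elim_inr] at h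
    rw [Finset.sum_eq_single f] at h
    · rw [if_pos rfl, mul_one_div, div_le_one hcap] at h
      exact h
    · intro g _ hg
      rw [if_neg (fun e => hg e.symm), mul_zero]
    · intro h
      exact absurd (Finset.mem_univ _) h
  · rw [← hyw, Fintype.sum_sum_type]
    have hz : 0 ≤ ∑ f : {e // e ∈ F}, y (Sum.inr f) := Finset.sum_nonneg (fun f _ => hy _)
    have hv : 0 ≤ ∑ v : V, y (Sum.inl v) := Finset.sum_nonneg (fun f _ => hy _)
    by_cases hcase : ∑ v : V, y (Sum.inl v) ≤ m
    · have h := h7 (fun v => y (Sum.inl v)) (fun v => hy _) hcase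
      set G : Finset {e // e ∈ F} := univ.filter
        (fun f => ∑ v ∈ f.1, y (Sum.inl v) ≤ 1 - τ) with hG
      have hFG : (F.filter (fun e => ∑ v ∈ e, y (Sum.inl v) ≤ 1 - τ)) ⊆
          G.image (fun f => f.1) := by
        intro e he
        rw [Finset.mem_filter] at he
        rw [Finset.mem_image]
        exact ⟨⟨e, he.1⟩, Finset.mem_filter.2 ⟨Finset.mem_univ _, he.2⟩, rfl⟩
      have hcard : ((F.filter (fun e => ∑ v ∈ e, y (Sum.inl v) ≤ 1 - τ)).card : ℝ) ≤ G.card := by
        exact_mod_cast (Finset.card_le_card hFG).trans Finset.card_image_le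
      have hnk : n ^ k = n * n ^ (k - 1) := by
        rw [← pow_succ']
        congr 1
        omega
      have hG1 : c * n ^ k ≤ G.card := h.trans hcard
      have hG2 : (G.card : ℝ) * (cap * τ) ≤ ∑ f : {e // e ∈ F}, y (Sum.inr f) := by
        have h8 : ∑ _f ∈ G, (cap * τ) ≤ ∑ f ∈ G, y (Sum.inr f) := by
          refine Finset.sum_le_sum ?_
          intro f hf
          rw [hG, Finset.mem_filter] at hf
          have h9 := hj' f
          have h10 : τ ≤ y (Sum.inr f) / cap := by linarith [hf.2]
          rw [le_div_iff₀ hcap] at h10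
          linarith
        rw [Finset.sum_const, nsmul_eq_mul] at h8
        refine h8.trans ?_
        exact Finset.sum_le_sum_of_subset_of_nonneg (Finset.subset_univ _) (fun _ _ _ => hy _)
      have hG3 : n ≤ (G.card : ℝ) * (cap * τ) := by
        have h11 : c * n ^ k * (cap * τ) = n := by
          rw [hcap_def, hnk]
          field_simp
        calc n = c * n ^ k * (cap * τ) := h11.symm
          _ ≤ (G.card : ℝ) * (cap * τ) := mul_le_mul_of_nonneg_right hG1 (by positivity)
      linarith
    · push Not at hcase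
      linarith

theorem rob (h1 : Pool.Agent.W163.CF.S1) (h2 : NIB) : S_ROB := by
  classical
  intro k hk c τ θ hc hτ hθ
  obtain ⟨κ, hκ, hnib⟩ := h2 k θ hθ
  set K : ℝ := 1 / (τ * c) with hK
  have hKpos : 0 < K := by rw [hK]; positivity
  obtain ⟨n0, hn0⟩ := exists_nat_ge (1 + K / κ)
  refine ⟨n0, ?_⟩
  intro V _ _ hcardV F hF m hm0 hmn hyp
  set n : ℝ := (Fintype.card V : ℝ) with hn_def
  have hnn : 1 + K / κ ≤ n := by
    refine hn0.trans ?_
    rw [hn_def]
    exact_mod_cast hcardV
  have p2 : 0 < K / κ := by positivity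
  have hn1 : 1 ≤ n := by linarith
  have hnpos : 0 < n := by linarith
  have hne : Nonempty V := by
    rw [← Fintype.card_pos_iff]
    have : (0 : ℝ) < (Fintype.card V : ℝ) := hnpos
    exact_mod_cast this
  obtain ⟨w, hw0, hwl, hwc, hws⟩ := frac h1 k hk F c τ m hc hτ hmn hyp
  have hKk : K ≤ κ * n := by
    have : K / κ ≤ n := by linarith
    rw [div_le_iff₀ hκ] at this
    linarith
  have hwκ : ∀ f : {e // e ∈ F}, w f ≤ κ := by
    intro f
    refine (hwc f).trans ?_
    rw [div_le_iff₀ (by positivity)]
    have h2 : n ≤ n ^ (k - 1) := by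
      calc n = n ^ 1 := (pow_one n).symm
        _ ≤ n ^ (k - 1) := pow_le_pow_right₀ hn1 (by omega)
    have h4 : κ * n ≤ κ * n ^ (k - 1) := mul_le_mul_of_nonneg_left h2 hκ.le
    exact hKk.trans h4
  obtain ⟨M, hM1, -, hM3⟩ := hnib {e // e ∈ F} V (fun f => f.1) w hw0
    (by
      intro f
      rw [← Finset.card_pos, hF f.1 f.2]
      omega)
    (by
      intro f
      exact (hF f.1 f.2).le)
    hwl
    (by
      intro u v huv
      have hcd : (univ.filter (fun f : {e // e ∈ F} => u ∈ f.1 ∧ v ∈ f.1)).card ≤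
          (Fintype.card V) ^ (k - 2) := by
        refine le_trans ?_ (card_two k F hF u v huv)
        rw [← Finset.card_image_of_injective _ (Subtype.val_injective)]
        apply Finset.card_le_card
        intro e he
        rw [Finset.mem_image] at he
        obtain ⟨g, hg, rfl⟩ := he
        rw [Finset.mem_filter] at hg ⊢
        exact ⟨g.2, hg.2⟩
      refine (Finset.sum_le_sum (fun f _ => hwc f)).trans ?_
      rw [Finset.sum_const, nsmul_eq_mul]
      have h2 : ((univ.filter (fun f : {e // e ∈ F} => u ∈ f.1 ∧ v ∈ f.1)).card : ℝ)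
          ≤ n ^ (k - 2) := by
        rw [hn_def]
        exact_mod_cast hcd
      have h3 : 0 ≤ K / n ^ (k - 1) := by positivity
      refine (mul_le_mul_of_nonneg_right h2 h3).trans ?_
      have h4 : n ^ (k - 1) = n * n ^ (k - 2) := by
        rw [← pow_succ']
        congr 1
        omega
      have h5 : n ^ (k - 2) * (K / n ^ (k - 1)) = K / n := by
        rw [h4]
        field_simp
      rw [h5, div_le_iff₀ hnpos]
      exact hKk)
    hwκ
  refine ⟨M.image (fun f => f.1), ?_, ?_, ?_⟩
  · intro e he
    rw [Finset.mem_image] at he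
    obtain ⟨f, _, rfl⟩ := he
    exact f.2
  · intro e he e' he' hne
    rw [Finset.mem_image] at he he'
    obtain ⟨f, hf, rfl⟩ := he
    obtain ⟨g, hg, rfl⟩ := he'
    refine hM1 f hf g hg ?_
    rintro rfl
    exact hne rfl
  · rw [Finset.card_image_of_injective _ Subtype.val_injective]
    by_cases hθ1 : θ ≤ 1
    · exact (mul_le_mul_of_nonneg_left hws (by linarith)).trans hM3
    · push Not at hθ1
      have : (0 : ℝ) ≤ (M.card : ℝ) := Nat.cast_nonneg _
      have h6 : (1 - θ) * m ≤ 0 := mul_nonpos_of_nonpos_of_nonneg (by linarith) hm0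
      linarith

end Pool.Agent.W298.SAM.Rob
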